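import Pool.Agent.H21.WN.Targets
import Pool.Agent.H3.WN.Fin

/-!
# White noise (MP_c59857_nt, MP_34b97f_an): row SDL, signed dilation
-/

set_option autoImplicit false

namespace Pool.Agent.H92.WN

open Finset
open Pool.Agent.H87.QP (rh tq)

/-- the number of multiples of `q` in an interval -/
lemma card_mult (q a N : ℕ) (hq : 0 < q) :
    ∑ m ∈ Ioc a (a + N), (if q ∣ m then (1 : ℝ) else 0) ≤ N / q + 1 := by
  rw [Pool.Agent.H3.WN.sum_mult q a (a + N) hq (fun _ => 1)]
  rw [sum_const, Nat.card_Ioc, nsmul_eq_mul, mul_one]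
  have h1 : (a + N) / q - a / q ≤ N / q + 1 := by
    have h5 : ∀ x y e : ℕ, e ≤ 1 → x + y + e - x ≤ y + 1 := by
      intro x y e he
      omega
    rw [Nat.add_div (a := a) (b := N) hq]
    exact h5 _ _ _ (by split_ifs <;> simp)
  calc (((a + N) / q - a / q : ℕ) : ℝ) ≤ ((N / q + 1 : ℕ) : ℝ) := by exact_mod_cast h1
    _ = ((N / q : ℕ) : ℝ) + 1 := by push_cast; ring
    _ ≤ N / q + 1 := by linarith [Nat.cast_div_le (α := ℝ) (m := N) (n := q)]

lemma card_mult' (q a N h : ℕ) (hq : 0 < q) :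
    ∑ m ∈ Ioc a (a + N), (if q ∣ m + h then (1 : ℝ) else 0) ≤ N / q + 1 := by
  have h1 : ∑ m ∈ Ioc a (a + N), (if q ∣ m + h then (1 : ℝ) else 0) =
      ∑ m ∈ Ioc (a + h) (a + h + N), (if q ∣ m then (1 : ℝ) else 0) := by
    rw [Pool.Agent.H3.WN.sum_Ioc_shift (fun m => if q ∣ m + h then (1 : ℝ) else 0),
      Pool.Agent.H3.WN.sum_Ioc_shift (fun m => if q ∣ m then (1 : ℝ) else 0)]
    refine sum_congr rfl fun t _ => ?_
    have e : a + 1 + t + h = a + h + 1 + t := by ring
    rw [e]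
  rw [h1]
  exact card_mult q (a + h) N hq

theorem pf_SDL : Pool.Agent.H21.WN.T_SDL := by
  intro f q T n h hf hmul hq hqT
  have hq0 : 0 < q := hq.pos
  have hT0 : 0 < T := hq0.trans_le hqT
  have hqR : (0 : ℝ) < q := by exact_mod_cast hq0
  have hTR : (0 : ℝ) < T := by exact_mod_cast hT0
  have hT' : 1 ≤ T / q := (Nat.one_le_div_iff hq0).2 hqT
  have hT'R : (0 : ℝ) < ((T / q : ℕ) : ℝ) := by exact_mod_cast hT'
  set g : ℕ → ℝ := fun m => f m * f (m + h) with hg
  set G : ℕ → ℝ := fun m => f (q * m) * f (q * (m + h)) with hG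
  have hfq : |f q| ≤ 1 := hf q
  have hG1 : ∀ m, |G m| ≤ 1 := fun m => by
    rw [hG]
    simp only
    rw [abs_mul]
    exact mul_le_one₀ (hf _) (abs_nonneg _) (hf _)
  have hg1 : ∀ m, |g m| ≤ 1 := fun m => by
    rw [hg]
    simp only
    rw [abs_mul]
    exact mul_le_one₀ (hf _) (abs_nonneg _) (hf _)
  have h1 : (T : ℝ) * (tq f q T h n + rh f T n (q * h)) =
      q * ∑ m ∈ Ioc (n / q) ((n + T) / q), G m := by
    have e1 : (T : ℝ) * (tq f q T h n + rh f T n (q * h)) =
        ∑ m ∈ Ioc n (n + T), (if q ∣ m then (q : ℝ) * (f m * f (m + q * h)) else 0) := by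
      unfold tq rh
      rw [← add_div, mul_div_cancel₀ _ hTR.ne', ← sum_add_distrib]
      refine sum_congr rfl fun m _ => ?_
      unfold Pool.Agent.H93.EB.D
      split_ifs <;> ring
    rw [e1, Pool.Agent.H3.WN.sum_mult q n (n + T) hq0
      (fun m => (q : ℝ) * (f m * f (m + q * h))), mul_sum]
    refine sum_congr rfl fun m _ => ?_
    have e2 : q * m + q * h = q * (m + h) := by ring
    rw [e2]
  -- the end
  have h2 : |∑ m ∈ Ioc (n / q) ((n + T) / q), G m -
      ∑ m ∈ Ioc (n / q) (n / q + T / q), G m| ≤ 1 := by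
    have h3 : (n + T) / q = n / q + T / q ∨ (n + T) / q = n / q + T / q + 1 := by
      have h4 := Nat.add_div (a := n) (b := T) hq0
      rw [h4]
      split_ifs
      · right
        rfl
      · left
        rfl
    rcases h3 with h3 | h3
    · rw [h3, sub_self, abs_zero]
      exact zero_le_one
    · rw [h3, sum_Ioc_succ_top (by omega), add_sub_cancel_left]
      exact hG1 _
  -- the summands
  have hδ : 0 ≤ 1 - |f q| := by linarith
  have h2' : |∑ m ∈ Ioc (n / q) (n / q + T / q), (g m - G m)| ≤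
      2 * (1 - |f q|) * ((T / q : ℕ) : ℝ) + 4 * (((T / q : ℕ) : ℝ) / q + 1) := by
    have hpt : ∀ m ∈ Ioc (n / q) (n / q + T / q), |g m - G m| ≤ 2 * (1 - |f q|) +
        (2 * (if q ∣ m then (1 : ℝ) else 0) + 2 * (if q ∣ m + h then (1 : ℝ) else 0)) := by
      intro m hm
      have hm1 : 0 < m := (Nat.zero_le _).trans_lt (mem_Ioc.1 hm).1
      have htriv : |g m - G m| ≤ 2 := by
        refine (abs_sub _ _).trans ?_
        linarith [hg1 m, hG1 m]
      by_cases hd1 : q ∣ m
      · rw [if_pos hd1]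
        have h5 : (0 : ℝ) ≤ if q ∣ m + h then (1 : ℝ) else 0 := by split_ifs <;> norm_num
        linarith
      · by_cases hd2 : q ∣ m + h
        · rw [if_pos hd2, if_neg hd1]
          linarith
        · rw [if_neg hd1, if_neg hd2]
          have e1 : f (q * m) = f q * f m :=
            hmul q m hq0 hm1 ((Nat.Prime.coprime_iff_not_dvd hq).2 hd1)
          have e2 : f (q * (m + h)) = f q * f (m + h) :=
            hmul q (m + h) hq0 (by omega) ((Nat.Prime.coprime_iff_not_dvd hq).2 hd2)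
          have e3 : g m - G m = (1 - f q ^ 2) * g m := by
            rw [hg, hG]
            simp only
            rw [e1, e2]
            ring
          rw [e3, abs_mul]
          have h6 : |1 - f q ^ 2| ≤ 2 * (1 - |f q|) := by
            have h7 : f q ^ 2 = |f q| ^ 2 := (sq_abs _).symm
            rw [h7]
            have h8 := abs_nonneg (f q)
            rw [abs_of_nonneg (by nlinarith)]
            nlinarith
          calc |1 - f q ^ 2| * |g m| ≤ (2 * (1 - |f q|)) * 1 :=
                mul_le_mul h6 (hg1 m) (abs_nonneg _) (by linarith)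
            _ = _ := by ring
    refine (abs_sum_le_sum_abs _ _).trans ((sum_le_sum hpt).trans ?_)
    rw [sum_add_distrib, sum_add_distrib, ← mul_sum, ← mul_sum, ← mul_sum, sum_const, Nat.card_Ioc,
      nsmul_eq_mul, add_tsub_cancel_left]
    have h5 := card_mult q (n / q) (T / q) hq0
    have h6 := card_mult' q (n / q) (T / q) h hq0
    linarith
  have h3 : ((T / q : ℕ) : ℝ) * rh f (T / q) (n / q) h =
      ∑ m ∈ Ioc (n / q) (n / q + T / q), g m := by
    unfold rh
    rw [mul_div_cancel₀ _ hT'R.ne']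
  have hqT' : (q : ℝ) * ((T / q : ℕ) : ℝ) ≤ T := by
    have h7 : q * (T / q) ≤ T := Nat.mul_div_le T q
    exact_mod_cast h7
  have h5 : |(T : ℝ) - q * ((T / q : ℕ) : ℝ)| ≤ q := by
    have h6 : T ≤ q * (T / q) + q := by
      have h7 := Nat.div_add_mod T q
      have h8 := Nat.mod_lt T hq0
      omega
    have h8 : (T : ℝ) ≤ q * ((T / q : ℕ) : ℝ) + q := by exact_mod_cast h6
    rw [abs_le]
    constructor <;> linarith
  have h6 : |rh f (T / q) (n / q) h| ≤ 1 := Pool.Agent.H87.QP.abs_rh_le hf _ _ _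
  have h7 : |(T : ℝ) * (rh f (T / q) (n / q) h - rh f T n (q * h))| ≤
      T * |tq f q T h n| + q + q * (2 * (1 - |f q|) * ((T / q : ℕ) : ℝ) +
        4 * (((T / q : ℕ) : ℝ) / q + 1)) + q := by
    have e : (T : ℝ) * (rh f (T / q) (n / q) h - rh f T n (q * h)) =
        (T : ℝ) * tq f q T h n + (T - q * ((T / q : ℕ) : ℝ)) * rh f (T / q) (n / q) h +
          q * (∑ m ∈ Ioc (n / q) (n / q + T / q), (g m - G m)) -
          q * (∑ m ∈ Ioc (n / q) ((n + T) / q), G m -
            ∑ m ∈ Ioc (n / q) (n / q + T / q), G m) := by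
      rw [sum_sub_distrib, ← h3]
      linear_combination (-1) * h1
    rw [e]
    have k1 : |(T : ℝ) * tq f q T h n| = T * |tq f q T h n| := by
      rw [abs_mul, Nat.abs_cast]
    have k2 : |((T : ℝ) - q * ((T / q : ℕ) : ℝ)) * rh f (T / q) (n / q) h| ≤ q := by
      rw [abs_mul]
      have h8 := mul_le_mul h5 h6 (abs_nonneg _) hqR.le
      linarith
    have k3 : |(q : ℝ) * (∑ m ∈ Ioc (n / q) (n / q + T / q), (g m - G m))| ≤
        q * (2 * (1 - |f q|) * ((T / q : ℕ) : ℝ) + 4 * (((T / q : ℕ) : ℝ) / q + 1)) := by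
      rw [abs_mul, Nat.abs_cast]
      exact mul_le_mul_of_nonneg_left h2' hqR.le
    have k4 : |(q : ℝ) * (∑ m ∈ Ioc (n / q) ((n + T) / q), G m -
        ∑ m ∈ Ioc (n / q) (n / q + T / q), G m)| ≤ q := by
      rw [abs_mul, Nat.abs_cast]
      have h9 := mul_le_mul_of_nonneg_left h2 hqR.le
      linarith
    refine (abs_sub _ _).trans ?_
    refine add_le_add ?_ k4
    refine (abs_add_le _ _).trans ?_
    refine add_le_add ?_ k3
    refine (abs_add_le _ _).trans ?_
    rw [k1]
    exact add_le_add le_rfl k2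
  rw [abs_mul, Nat.abs_cast] at h7
  have h8 : q * (2 * (1 - |f q|) * ((T / q : ℕ) : ℝ) + 4 * (((T / q : ℕ) : ℝ) / q + 1)) ≤
      2 * (1 - |f q|) * T + 4 * (T / q) + 4 * q := by
    have e1 : q * (2 * (1 - |f q|) * ((T / q : ℕ) : ℝ) + 4 * (((T / q : ℕ) : ℝ) / q + 1)) =
        2 * (1 - |f q|) * (q * ((T / q : ℕ) : ℝ)) + 4 * ((T / q : ℕ) : ℝ) + 4 * q := by
      field_simp
      ring
    rw [e1]
    have h9 : ((T / q : ℕ) : ℝ) ≤ T / q := Nat.cast_div_le
    have h10 : 2 * (1 - |f q|) * (q * ((T / q : ℕ) : ℝ)) ≤ 2 * (1 - |f q|) * T :=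
      mul_le_mul_of_nonneg_left hqT' (by linarith)
    linarith
  have h9 : (T : ℝ) * |rh f (T / q) (n / q) h - rh f T n (q * h)| ≤
      T * (|tq f q T h n| + 6 * q / T + 2 * (1 - |f q|) + 4 / q) := by
    have e : (T : ℝ) * (|tq f q T h n| + 6 * q / T + 2 * (1 - |f q|) + 4 / q) =
        T * |tq f q T h n| + 6 * q + 2 * (1 - |f q|) * T + 4 * (T / q) := by
      field_simp
    rw [e]
    linarith
  exact le_of_mul_le_mul_left h9 hTR

end Pool.Agent.H92.WN
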