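import Pool.Agent.H92.WN.GLR
import Pool.Agent.H92.WN.SDL
import Pool.Agent.H3.WN.Wna

/-!
# White noise for real multiplicative functions: row FNR, the finite form
-/

set_option autoImplicit false

namespace Pool.Agent.H92.WN

open Finset Pool.Agent.H6.N4D Pool.Agent.H93 Pool.Agent.H93.ES Pool.Agent.H93.DE
  Pool.Agent.H28.NW Pool.Agent.H87.QP
open Pool.Agent.H21.WN (RM)

/-- the primes of a large level -/
lemma vanish {f : ℕ → ℝ} (hf : RM f) (hQ : T_QSU) {η : ℝ} (hη : 0 < η) :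
    ∃ W₂ : ℕ, ∀ w : ℕ, W₂ ≤ w →
      ∑ q ∈ EB.QQ w, 1 / (q : ℝ) * (2 * (1 - |f q|) + 4 / q) ≤ η := by
  obtain ⟨W, hW0, hW⟩ := hQ
  obtain ⟨s, hs⟩ := summable_iff_vanishing_norm.1 hf.sm (η / 4) (by positivity)
  obtain ⟨M, hM⟩ := exists_nat_gt (8 * W / η)
  set A : ℕ := s.sup (fun p : Nat.Primes => (p : ℕ)) + M + 1 with hA
  refine ⟨400 * A, fun w hw => ?_⟩
  have hAw : A ≤ w / 400 := by
    rw [Nat.le_div_iff_mul_le (by norm_num)]
    omega
  have hbig : ∀ q ∈ EB.QQ w, A < q := by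
    intro q hq
    unfold EB.QQ at hq
    rw [mem_filter, mem_Ioc] at hq
    calc A ≤ w / 400 := hAw
      _ < 2 ^ (w / 400) := Nat.lt_two_pow_self
      _ < q := hq.1.1
  have hpr : ∀ q ∈ EB.QQ w, q.Prime := by
    intro q hq
    unfold EB.QQ at hq
    rw [mem_filter] at hq
    exact hq.2
  have h1 : ∑ q ∈ EB.QQ w, (1 - |f q|) / (q : ℝ) ≤ η / 4 := by
    set t : Finset Nat.Primes := (EB.QQ w).subtype Nat.Prime with ht
    have h2 : Disjoint t s := by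
      rw [Finset.disjoint_left]
      intro p hp hps
      have hp2 : (p : ℕ) ∈ EB.QQ w := Finset.mem_subtype.1 hp
      have h3 := hbig _ hp2
      have h4 : (p : ℕ) ≤ s.sup (fun p : Nat.Primes => (p : ℕ)) := Finset.le_sup (f := fun p : Nat.Primes => (p : ℕ)) hps
      omega
    have h3 := hs t h2
    have h4 : ∑ p ∈ t, (1 - |f (p : ℕ)|) / ((p : ℕ) : ℝ) =
        ∑ q ∈ EB.QQ w, (1 - |f q|) / (q : ℝ) := by
      rw [ht]
      exact Finset.sum_subtype_of_mem (fun q : ℕ => (1 - |f q|) / (q : ℝ)) hpr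
    rw [h4] at h3
    exact ((le_abs_self _).trans h3.le)
  have h2 : ∑ q ∈ EB.QQ w, 1 / (q : ℝ) * (4 / q) ≤ η / 2 := by
    have h3 : ∀ q ∈ EB.QQ w, 1 / (q : ℝ) * (4 / q) ≤ 4 / (M + 1) * (1 / (q : ℝ)) := by
      intro q hq
      have h4 := hbig q hq
      have h5 : (M : ℝ) + 1 ≤ q := by
        have : M + 1 ≤ q := by omega
        exact_mod_cast this
      have h6 : (0 : ℝ) < q := by
        have : (0 : ℝ) ≤ M := Nat.cast_nonneg M
        linarith
      rw [mul_comm]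
      apply mul_le_mul_of_nonneg_right _ (by positivity)
      exact div_le_div_of_nonneg_left (by norm_num) (by positivity) h5
    refine (sum_le_sum h3).trans ?_
    rw [← mul_sum]
    calc 4 / ((M : ℝ) + 1) * ∑ q ∈ EB.QQ w, 1 / (q : ℝ) ≤ 4 / ((M : ℝ) + 1) * W :=
          mul_le_mul_of_nonneg_left (hW w) (by positivity)
      _ ≤ η / 2 := by
          rw [div_mul_eq_mul_div, div_le_iff₀ (by positivity)]
          rw [div_lt_iff₀ hη] at hM
          nlinarith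
  calc ∑ q ∈ EB.QQ w, 1 / (q : ℝ) * (2 * (1 - |f q|) + 4 / q)
      = 2 * ∑ q ∈ EB.QQ w, (1 - |f q|) / (q : ℝ) + ∑ q ∈ EB.QQ w, 1 / (q : ℝ) * (4 / q) := by
        rw [mul_sum, ← sum_add_distrib]
        refine sum_congr rfl fun q _ => ?_
        ring
    _ ≤ 2 * (η / 4) + η / 2 := by linarith
    _ = η := by ring

lemma tq_le3R {f : ℕ → ℝ} (hf : ∀ n, |f n| ≤ 1) {q S : ℕ} (hq : 1 ≤ q) (hqS : q ≤ S)
    (h n : ℕ) : |tq f q S h n| ≤ 3 := by
  unfold tq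
  have hT : (0 : ℝ) < S := by
    have : 0 < S := by omega
    exact_mod_cast this
  rw [abs_div, abs_of_pos hT, div_le_iff₀ hT]
  refine (abs_sum_le_sum_abs _ _).trans ((sum_le_sum fun m hm => ?_).trans
    (Pool.Agent.H40.ES.D_sum q n S hq hqS))
  rw [abs_mul, abs_mul]
  have h3 : |f m| * |f (m + q * h)| ≤ 1 := mul_le_one₀ (hf _) (abs_nonneg _) (hf _)
  calc |f m| * |f (m + q * h)| * |EB.D q m| ≤ 1 * |EB.D q m| :=
        mul_le_mul_of_nonneg_right h3 (abs_nonneg _)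
    _ = |EB.D q m| := one_mul _

/-- a long window is a mean of short windows -/
theorem tq_longR {f : ℕ → ℝ} (hf : ∀ n, |f n| ≤ 1) {q S T : ℕ} (hq : 1 ≤ q) (hqS : q ≤ S) (hST : S ≤ T)
    (n h : ℕ) : |tq f q T h n| ≤ (∑ u ∈ range T, |tq f q S h (n + u)|) / T + 6 * S / T := by
  have hS : (0 : ℝ) < S := by exact_mod_cast (by omega : 0 < S)
  have hT : (0 : ℝ) < T := by exact_mod_cast (by omega : 0 < T)
  set G : ℕ → ℝ := fun m => f m * f (m + q * h) * EB.D q m with hG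
  have hGb : ∀ a, ∑ m ∈ Ioc a (a + S), |G m| ≤ 3 * S := by
    intro a
    refine le_trans (sum_le_sum fun m hm => ?_) (Pool.Agent.H40.ES.D_sum q a S hq hqS)
    rw [hG]
    simp only
    rw [abs_mul, abs_mul]
    have h3 : |f m| * |f (m + q * h)| ≤ 1 := mul_le_one₀ (hf _) (abs_nonneg _) (hf _)
    calc |f m| * |f (m + q * h)| * |EB.D q m| ≤ 1 * |EB.D q m| :=
          mul_le_mul_of_nonneg_right h3 (abs_nonneg _)
      _ = |EB.D q m| := one_mul _
  -- the sum over the places inside the short windows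
  have h1 : ∑ u ∈ range T, (S : ℝ) * tq f q S h (n + u) =
      ∑ s ∈ range S, ∑ m ∈ Ioc (n + s) (n + s + T), G m := by
    have h2 : ∀ u, (S : ℝ) * tq f q S h (n + u) = ∑ s ∈ range S, G (n + u + 1 + s) := by
      intro u
      unfold tq
      rw [mul_div_cancel₀ _ hS.ne', Pool.Agent.H3.WN.sum_Ioc_shift]
    have h3 : ∀ s, ∑ m ∈ Ioc (n + s) (n + s + T), G m = ∑ u ∈ range T, G (n + s + 1 + u) := by
      intro s
      rw [Pool.Agent.H3.WN.sum_Ioc_shift]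
    rw [sum_congr rfl fun u _ => h2 u, sum_congr rfl fun s _ => h3 s, sum_comm]
    refine sum_congr rfl fun s _ => sum_congr rfl fun u _ => ?_
    congr 1
    omega
  have h4 : ∀ s ∈ range S, |∑ m ∈ Ioc (n + s) (n + s + T), G m - ∑ m ∈ Ioc n (n + T), G m| ≤
      6 * S := by
    intro s hs
    rw [mem_range] at hs
    have e1 : ∑ m ∈ Ioc n (n + s), G m + ∑ m ∈ Ioc (n + s) (n + s + T), G m =
        ∑ m ∈ Ioc n (n + s + T), G m :=
      sum_Ioc_consecutive _ (by omega) (by omega)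
    have e2 : ∑ m ∈ Ioc n (n + T), G m + ∑ m ∈ Ioc (n + T) (n + s + T), G m =
        ∑ m ∈ Ioc n (n + s + T), G m :=
      sum_Ioc_consecutive _ (by omega) (by omega)
    have e3 : |∑ m ∈ Ioc n (n + s), G m| ≤ 3 * S := by
      refine (abs_sum_le_sum_abs _ _).trans (le_trans ?_ (hGb n))
      exact sum_le_sum_of_subset_of_nonneg (Ioc_subset_Ioc_right (by omega))
        fun _ _ _ => abs_nonneg _
    have e4 : |∑ m ∈ Ioc (n + T) (n + s + T), G m| ≤ 3 * S := by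
      refine (abs_sum_le_sum_abs _ _).trans (le_trans ?_ (hGb (n + T)))
      exact sum_le_sum_of_subset_of_nonneg (Ioc_subset_Ioc_right (by omega))
        fun _ _ _ => abs_nonneg _
    have e5 : ∑ m ∈ Ioc (n + s) (n + s + T), G m - ∑ m ∈ Ioc n (n + T), G m =
        ∑ m ∈ Ioc (n + T) (n + s + T), G m - ∑ m ∈ Ioc n (n + s), G m := by linarith
    rw [e5]
    refine (abs_sub _ _).trans ?_
    linarith
  have h5 : (S : ℝ) * (T * tq f q T h n) = S * ∑ m ∈ Ioc n (n + T), G m := by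
    unfold tq
    rw [mul_div_cancel₀ _ hT.ne']
  have h6 : |∑ u ∈ range T, (S : ℝ) * tq f q S h (n + u) - S * (T * tq f q T h n)| ≤
      S * (6 * S) := by
    have e : (S : ℝ) * ∑ m ∈ Ioc n (n + T), G m = ∑ _s ∈ range S, ∑ m ∈ Ioc n (n + T), G m := by
      rw [sum_const, card_range, nsmul_eq_mul]
    rw [h1, h5, e, ← sum_sub_distrib]
    refine (abs_sum_le_sum_abs _ _).trans ((sum_le_sum h4).trans (le_of_eq ?_))
    rw [sum_const, card_range, nsmul_eq_mul]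
  have h7 : (S : ℝ) * |T * tq f q T h n| ≤
      S * (∑ u ∈ range T, |tq f q S h (n + u)| + 6 * S) := by
    have e1 : (S : ℝ) * |T * tq f q T h n| = |S * (T * tq f q T h n)| := by
      rw [abs_mul (S : ℝ), Nat.abs_cast]
    have e2 : |∑ u ∈ range T, (S : ℝ) * tq f q S h (n + u)| ≤
        S * ∑ u ∈ range T, |tq f q S h (n + u)| := by
      rw [← mul_sum, abs_mul, Nat.abs_cast]
      exact mul_le_mul_of_nonneg_left (abs_sum_le_sum_abs _ _) hS.le
    have e3 := abs_sub_abs_le_abs_sub ((S : ℝ) * (T * tq f q T h n))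
      (∑ u ∈ range T, (S : ℝ) * tq f q S h (n + u))
    rw [abs_sub_comm] at e3
    rw [e1]
    linarith
  have h8 : |(T : ℝ) * tq f q T h n| ≤ ∑ u ∈ range T, |tq f q S h (n + u)| + 6 * S :=
    le_of_mul_le_mul_left h7 hS
  rw [abs_mul, Nat.abs_cast] at h8
  rw [← add_div, le_div_iff₀ hT]
  linarith

/-- the mean of the tests of long windows -/
theorem tq_meanR {f : ℕ → ℝ} (hf : ∀ n, |f n| ≤ 1) (X : Wn) {q S T : ℕ} (hq : 1 ≤ q) (hqS : q ≤ S)
    (hST : S ≤ T) (h : ℕ) {δ : ℝ} (hδ : 0 < δ) :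
    wlg X (fun n => |tq f q T h n|) ≤ 1 / (2 * δ) * wlg X (fun n => tq f q S h n ^ 2) +
      (δ / 2 + 6 * S / T) * (1 + X.L) + 9 * EB.hs T := by
  have hT : (0 : ℝ) < T := by exact_mod_cast (by omega : 0 < T)
  have h1 : wlg X (fun n => |tq f q T h n|) ≤
      wlg X (fun n => (∑ u ∈ range T, |tq f q S h (n + u)|) / T + 6 * S / T) :=
    wlg_mono fun n _ => tq_longR hf hq hqS hST n h
  have h2 : wlg X (fun n => (∑ u ∈ range T, |tq f q S h (n + u)|) / T) ≤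
      wlg X (fun n => |tq f q S h n|) + 9 * EB.hs T := by
    have e : wlg X (fun n => (∑ u ∈ range T, |tq f q S h (n + u)|) / T) =
        (∑ u ∈ range T, wlg X (fun n => |tq f q S h (n + u)|)) / T := by
      rw [div_eq_inv_mul, ← wlg_sum, ← wlg_mul]
      congr 1
      funext n
      rw [div_eq_inv_mul]
    rw [e, div_le_iff₀ hT]
    calc ∑ u ∈ range T, wlg X (fun n => |tq f q S h (n + u)|)
        ≤ ∑ _u ∈ range T, (wlg X (fun n => |tq f q S h n|) + 9 * EB.hs T) := by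
          refine sum_le_sum fun u hu => ?_
          rw [mem_range] at hu
          have h3 := wlg_shift X u (fun n => |tq f q S h n|) (c := 3) fun n => by
            rw [abs_abs]
            exact tq_le3R hf hq hqS h n
          have h4 := EB.hs_mono (i := u) (j := T) hu.le
          have h5 := (abs_le.1 h3).2
          linarith
      _ = _ := by
          rw [sum_const, card_range, nsmul_eq_mul]
          ring
  have h3 : wlg X (fun n => |tq f q S h n|) ≤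
      wlg X (fun n => δ / 2 + 1 / (2 * δ) * tq f q S h n ^ 2) := by
    refine wlg_mono fun n _ => ?_
    have h4 : 0 ≤ (|tq f q S h n| - δ) ^ 2 := sq_nonneg _
    have h5 := sq_abs (tq f q S h n)
    have e : δ / 2 + 1 / (2 * δ) * tq f q S h n ^ 2 - |tq f q S h n| =
        (|tq f q S h n| - δ) ^ 2 / (2 * δ) := by
      field_simp
      rw [← h5]
      ring
    have h6 : 0 ≤ (|tq f q S h n| - δ) ^ 2 / (2 * δ) := by positivity
    linarith
  rw [wlg_add, wlg_const] at h1 h3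
  rw [wlg_mul] at h3
  have h4 := wlg_one_le X
  have h5 : 6 * (S : ℝ) / T * wlg X (fun _ => 1) ≤ 6 * S / T * (1 + X.L) :=
    mul_le_mul_of_nonneg_left h4 (by positivity)
  have h6 : δ / 2 * wlg X (fun _ => 1) ≤ δ / 2 * (1 + X.L) :=
    mul_le_mul_of_nonneg_left h4 (by positivity)
  nlinarith

theorem pf_FNR (hG : T_GLR) (hQ : T_QSU) (f : ℕ → ℝ) (hf : RM f) : FinU f := by
  intro H W₀ B ε hε
  have hb := hf.bd
  obtain ⟨W, hW0, hW⟩ := hQ
  have hHW : (0 : ℝ) < ((H : ℝ) + 1) * W := by positivity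
  set δ : ℝ := ε / (8 * (((H : ℝ) + 1) * W)) with hδ
  have hδ0 : 0 < δ := by positivity
  set η : ℝ := ε / (16 * ((H : ℝ) + 1)) with hη
  have hη0 : 0 < η := by positivity
  obtain ⟨W₂, hW₂⟩ := vanish hf ⟨W, hW0, hW⟩ hη0
  obtain ⟨W₁, X₁, hG⟩ := hG H (max W₀ W₂) (δ * ε / 4) (by positivity)
  obtain ⟨T₀, hT₀⟩ := exists_nat_gt (96 * (((H : ℝ) + 1) * W) * 2 ^ W₁ / ε)
  refine ⟨W₁, max T₀ (2 ^ W₁), ?_⟩
  intro T₁
  refine ⟨|X₁| + 1 + 72 * (((H : ℝ) + 1) * W) * (1 + T₁) / ε +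
    16 * W * (|B| * (3 * (1 + 2 ^ W₁) + 2)) / ε, ?_⟩
  intro X hX
  have hp1 : 0 ≤ 72 * (((H : ℝ) + 1) * W) * (1 + (T₁ : ℝ)) / ε := by positivity
  have hp2 : 0 ≤ 16 * W * (|B| * (3 * (1 + 2 ^ W₁) + 2)) / ε := by positivity
  have hX1 : X₁ ≤ X.L := by linarith [le_abs_self X₁, abs_nonneg X₁]
  have hL1 : 1 ≤ X.L := by linarith [abs_nonneg X₁]
  obtain ⟨w, hw0, hw1, hG⟩ := hG X f hX1 hb
  have hv := hW₂ w ((le_max_right _ _).trans hw0)
  refine ⟨w, (le_max_left _ _).trans hw0, hw1, ?_⟩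
  intro T hT0 hT1 F hFl hFb
  have hTW : 2 ^ W₁ ≤ T := (le_max_right _ _).trans hT0
  have hTT : T₀ ≤ T := (le_max_left _ _).trans hT0
  have hTr : (0 : ℝ) < T := by
    have : 0 < 2 ^ W₁ := by positivity
    exact_mod_cast lt_of_lt_of_le this hTW
  have hwW : 2 ^ w ≤ 2 ^ W₁ := Nat.pow_le_pow_right (by norm_num) hw1
  have hS : ((2 ^ w : ℕ) : ℝ) ≤ 2 ^ W₁ := by exact_mod_cast hwW
  have hqf : ∀ q ∈ EB.QQ w, q.Prime ∧ 1 ≤ q ∧ q ≤ 2 ^ w := by
    intro q hq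
    obtain ⟨h1, h2, _⟩ := Pool.Agent.H40.ES.QQ_facts hq
    unfold EB.QQ at hq
    rw [mem_filter] at hq
    exact ⟨hq.2, h1, h2⟩
  -- one prime
  have hone : ∀ q ∈ EB.QQ w, wlg X (fun n => F (fun k => rh f (T / q) n k)) ≤
      wlg X (fun n => F (fun k => rh f T n (q * k))) +
        (∑ k ∈ Icc 1 H, (1 / (2 * δ) * wlg X (fun n => tq f q (2 ^ w) k n ^ 2) +
          (δ / 2 + 12 * 2 ^ W₁ / T) * (1 + X.L) + 9 * EB.hs T₁ +
          (2 * (1 - |f q|) + 4 / q) * (1 + X.L))) +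
        2 * (|B| * (3 * (1 + 2 ^ W₁) + 2)) := by
    intro q hq
    obtain ⟨hqp, hq1, hq2⟩ := hqf q hq
    have hqT : q ≤ T := hq2.trans (hwW.trans hTW)
    have hqr : (q : ℝ) ≤ 2 ^ W₁ := by exact_mod_cast hq2.trans hwW
    have hB : ∀ n, |F (fun k => rh f (T / q) n k)| ≤ |B| := fun n =>
      (hFb _ fun k => abs_rh_le hb _ _ _).trans (le_abs_self B)
    have h1 := wlg_div X q hq1 (fun n => F (fun k => rh f (T / q) n k)) hB
    have h2 : EB.hs q ≤ 1 + 2 ^ W₁ := by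
      refine (EB.hs_le q).trans ?_
      have h3 : Real.log q ≤ q := (Real.log_le_sub_one_of_pos (by exact_mod_cast hq1)).trans
        (by linarith)
      linarith
    have h3 : 2 * (|B| * (3 * EB.hs q + 2)) ≤ 2 * (|B| * (3 * (1 + 2 ^ W₁) + 2)) := by
      have := abs_nonneg B
      gcongr
    have h4 : wlg X (fun n => F (fun k => rh f (T / q) (n / q) k)) ≤
        wlg X (fun n => F (fun k => rh f T n (q * k)) +
          ∑ k ∈ Icc 1 H, (|tq f q T k n| + 6 * q / T + 2 * (1 - |f q|) + 4 / q)) := by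
      refine wlg_mono fun n _ => ?_
      have h5 := hFl (fun k => rh f (T / q) (n / q) k) (fun k => rh f T n (q * k))
      have h6 : ∑ k ∈ Icc 1 H, |rh f (T / q) (n / q) k - rh f T n (q * k)| ≤
          ∑ k ∈ Icc 1 H, (|tq f q T k n| + 6 * q / T + 2 * (1 - |f q|) + 4 / q) :=
        sum_le_sum fun k _ => pf_SDL f q T n k hb hf.mul hqp hqT
      linarith [(abs_le.1 h5).2]
    rw [wlg_add, wlg_sum] at h4
    have h5 : ∑ k ∈ Icc 1 H, wlg X (fun n => |tq f q T k n| + 6 * q / T +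
          2 * (1 - |f q|) + 4 / q) ≤
        ∑ k ∈ Icc 1 H, (1 / (2 * δ) * wlg X (fun n => tq f q (2 ^ w) k n ^ 2) +
          (δ / 2 + 12 * 2 ^ W₁ / T) * (1 + X.L) + 9 * EB.hs T₁ +
          (2 * (1 - |f q|) + 4 / q) * (1 + X.L)) := by
      refine sum_le_sum fun k _ => ?_
      rw [wlg_add, wlg_add, wlg_add, wlg_const X (6 * (q : ℝ) / T), wlg_const X (2 * (1 - |f q|)),
        wlg_const X (4 / (q : ℝ))]
      have h6 := tq_meanR hb X hq1 hq2 (hwW.trans hTW) k hδ0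
      have hw1' := wlg_one_le X
      have hw0' : 0 ≤ wlg X (fun _ => 1) := wlg_nonneg fun _ _ => zero_le_one
      have hfq : |f q| ≤ 1 := hb q
      have h7 : 6 * (q : ℝ) / T * wlg X (fun _ => 1) ≤ 6 * 2 ^ W₁ / T * (1 + X.L) := by
        gcongr
      have h7a : 2 * (1 - |f q|) * wlg X (fun _ => 1) ≤ 2 * (1 - |f q|) * (1 + X.L) :=
        mul_le_mul_of_nonneg_left hw1' (by linarith)
      have h7b : 4 / (q : ℝ) * wlg X (fun _ => 1) ≤ 4 / q * (1 + X.L) :=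
        mul_le_mul_of_nonneg_left hw1' (by positivity)
      have h8 : 6 * ((2 ^ w : ℕ) : ℝ) / T ≤ 6 * 2 ^ W₁ / T := by gcongr
      have h9 : (δ / 2 + 6 * ((2 ^ w : ℕ) : ℝ) / T) * (1 + X.L) ≤
          (δ / 2 + 6 * 2 ^ W₁ / T) * (1 + X.L) := by
        apply mul_le_mul_of_nonneg_right _ (by linarith)
        linarith
      have h10 := EB.hs_mono (i := T) (j := T₁) hT1
      have e : (δ / 2 + 12 * 2 ^ W₁ / (T : ℝ)) * (1 + X.L) =
          (δ / 2 + 6 * 2 ^ W₁ / T) * (1 + X.L) + 6 * 2 ^ W₁ / T * (1 + X.L) := by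
        ring
      linarith
    linarith [(abs_le.1 h1).1]
  -- all primes
  have hall : ∑ q ∈ EB.QQ w, 1 / (q : ℝ) * wlg X (fun n => F (fun k => rh f (T / q) n k)) ≤
      ∑ q ∈ EB.QQ w, 1 / (q : ℝ) * wlg X (fun n => F (fun k => rh f T n (q * k))) +
      (1 / (2 * δ) * ∑ k ∈ Icc 1 H, wlg X (fun n => ∑ q ∈ EB.QQ w, 1 / (q : ℝ) *
        tq f q (2 ^ w) k n ^ 2) +
      (∑ q ∈ EB.QQ w, 1 / (q : ℝ)) * (H * ((δ / 2 + 12 * 2 ^ W₁ / T) * (1 + X.L) +
        9 * EB.hs T₁) + 2 * (|B| * (3 * (1 + 2 ^ W₁) + 2))) +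
      (∑ q ∈ EB.QQ w, 1 / (q : ℝ) * (2 * (1 - |f q|) + 4 / q)) * (H * (1 + X.L))) := by
    calc ∑ q ∈ EB.QQ w, 1 / (q : ℝ) * wlg X (fun n => F (fun k => rh f (T / q) n k))
        ≤ ∑ q ∈ EB.QQ w, 1 / (q : ℝ) * (wlg X (fun n => F (fun k => rh f T n (q * k))) +
        (∑ k ∈ Icc 1 H, (1 / (2 * δ) * wlg X (fun n => tq f q (2 ^ w) k n ^ 2) +
          (δ / 2 + 12 * 2 ^ W₁ / T) * (1 + X.L) + 9 * EB.hs T₁ +
          (2 * (1 - |f q|) + 4 / q) * (1 + X.L))) +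
        2 * (|B| * (3 * (1 + 2 ^ W₁) + 2))) := by
          refine sum_le_sum fun q hq => ?_
          exact mul_le_mul_of_nonneg_left (hone q hq) (by positivity)
      _ = _ := by
          have e1 : ∑ k ∈ Icc 1 H, wlg X (fun n => ∑ q ∈ EB.QQ w, 1 / (q : ℝ) *
              tq f q (2 ^ w) k n ^ 2) =
              ∑ q ∈ EB.QQ w, 1 / (q : ℝ) * ∑ k ∈ Icc 1 H,
                wlg X (fun n => tq f q (2 ^ w) k n ^ 2) := by
            rw [sum_congr rfl fun k _ => wlg_sum X (EB.QQ w) (fun q n => 1 / (q : ℝ) *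
              tq f q (2 ^ w) k n ^ 2), sum_comm]
            refine sum_congr rfl fun q _ => ?_
            rw [mul_sum]
            refine sum_congr rfl fun k _ => ?_
            rw [wlg_mul]
          rw [e1, mul_sum, sum_mul, sum_mul, ← sum_add_distrib, ← sum_add_distrib,
            ← sum_add_distrib]
          refine sum_congr rfl fun q _ => ?_
          have e2 : ∑ k ∈ Icc 1 H, (1 / (2 * δ) * wlg X (fun n => tq f q (2 ^ w) k n ^ 2) +
              (δ / 2 + 12 * 2 ^ W₁ / T) * (1 + X.L) + 9 * EB.hs T₁ +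
              (2 * (1 - |f q|) + 4 / q) * (1 + X.L)) =
              1 / (2 * δ) * ∑ k ∈ Icc 1 H, wlg X (fun n => tq f q (2 ^ w) k n ^ 2) +
              H * ((δ / 2 + 12 * 2 ^ W₁ / T) * (1 + X.L) + 9 * EB.hs T₁ +
              (2 * (1 - |f q|) + 4 / q) * (1 + X.L)) := by
            rw [mul_sum]
            have e3 : (H : ℝ) * ((δ / 2 + 12 * 2 ^ W₁ / T) * (1 + X.L) + 9 * EB.hs T₁ +
                (2 * (1 - |f q|) + 4 / q) * (1 + X.L)) =
                ∑ _k ∈ Icc 1 H, ((δ / 2 + 12 * 2 ^ W₁ / T) * (1 + X.L) + 9 * EB.hs T₁ +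
                (2 * (1 - |f q|) + 4 / q) * (1 + X.L)) := by
              rw [sum_const, Nat.card_Icc, nsmul_eq_mul, Nat.add_sub_cancel]
            rw [e3, ← sum_add_distrib]
            refine sum_congr rfl fun k _ => ?_
            ring
          rw [e2]
          ring
  refine hall.trans ?_
  -- sizes
  have hA : 1 / (2 * δ) * ∑ k ∈ Icc 1 H, wlg X (fun n => ∑ q ∈ EB.QQ w, 1 / (q : ℝ) *
      tq f q (2 ^ w) k n ^ 2) ≤ ε / 8 * X.L := by
    calc 1 / (2 * δ) * ∑ k ∈ Icc 1 H, wlg X (fun n => ∑ q ∈ EB.QQ w, 1 / (q : ℝ) *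
        tq f q (2 ^ w) k n ^ 2) ≤ 1 / (2 * δ) * (δ * ε / 4 * X.L) :=
          mul_le_mul_of_nonneg_left hG (by positivity)
      _ = ε / 8 * X.L := by
          field_simp
          ring
  have hsum0 : 0 ≤ ∑ q ∈ EB.QQ w, 1 / (q : ℝ) := sum_nonneg fun q _ => by positivity
  have hhs : EB.hs T₁ ≤ 1 + T₁ := by
    refine (EB.hs_le T₁).trans ?_
    have h3 : Real.log T₁ ≤ T₁ := by
      rcases Nat.eq_zero_or_pos T₁ with h | h
      · subst h
        simp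
      · exact (Real.log_le_sub_one_of_pos (by exact_mod_cast h)).trans (by linarith)
    linarith
  have hhs0 := EB.hs_nonneg T₁
  have hTsm : 96 * (((H : ℝ) + 1) * W) * 2 ^ W₁ ≤ ε * T := by
    have h1 : 96 * (((H : ℝ) + 1) * W) * 2 ^ W₁ / ε ≤ T :=
      hT₀.le.trans (by exact_mod_cast hTT)
    rw [div_le_iff₀ hε] at h1
    linarith
  have hB1 : W * (((H : ℝ) + 1) * ((δ / 2 + 12 * 2 ^ W₁ / T) * (2 * X.L))) ≤
      (ε / 8 + ε * 24 / 96) * X.L := by
    have h1 : ((H : ℝ) + 1) * W * δ = ε / 8 := by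
      rw [hδ]
      field_simp
    have h2 : ((H : ℝ) + 1) * W * (12 * 2 ^ W₁ / T) ≤ ε * 12 / 96 := by
      rw [← mul_div_assoc, div_le_iff₀ hTr]
      nlinarith
    have h3 : 0 ≤ X.L := by linarith
    calc W * (((H : ℝ) + 1) * ((δ / 2 + 12 * 2 ^ W₁ / T) * (2 * X.L)))
        = (((H : ℝ) + 1) * W * δ + 2 * (((H : ℝ) + 1) * W * (12 * 2 ^ W₁ / T))) * X.L := by ring
      _ ≤ (ε / 8 + 2 * (ε * 12 / 96)) * X.L := by
          apply mul_le_mul_of_nonneg_right _ h3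
          linarith
      _ = _ := by ring
  have hB2 : W * (((H : ℝ) + 1) * (9 * EB.hs T₁)) ≤ ε / 8 * X.L := by
    have h1 : 72 * (((H : ℝ) + 1) * W) * (1 + T₁) / ε ≤ X.L := by
      linarith [abs_nonneg X₁]
    rw [div_le_iff₀ hε] at h1
    have h2 : ((H : ℝ) + 1) * W * EB.hs T₁ ≤ ((H : ℝ) + 1) * W * (1 + T₁) :=
      mul_le_mul_of_nonneg_left hhs hHW.le
    nlinarith
  have hB3 : W * (2 * (|B| * (3 * (1 + 2 ^ W₁) + 2))) ≤ ε / 8 * X.L := by
    have h1 : 16 * W * (|B| * (3 * (1 + 2 ^ W₁) + 2)) / ε ≤ X.L := by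
      linarith [abs_nonneg X₁]
    rw [div_le_iff₀ hε] at h1
    nlinarith
  have hC : (∑ q ∈ EB.QQ w, 1 / (q : ℝ)) * (H * ((δ / 2 + 12 * 2 ^ W₁ / T) * (1 + X.L) +
      9 * EB.hs T₁) + 2 * (|B| * (3 * (1 + 2 ^ W₁) + 2))) ≤
      W * (((H : ℝ) + 1) * ((δ / 2 + 12 * 2 ^ W₁ / T) * (2 * X.L)) +
        ((H : ℝ) + 1) * (9 * EB.hs T₁) + 2 * (|B| * (3 * (1 + 2 ^ W₁) + 2))) := by
    have h1 : 0 ≤ (δ / 2 + 12 * 2 ^ W₁ / (T : ℝ)) := by positivity
    have h2 : (H : ℝ) * ((δ / 2 + 12 * 2 ^ W₁ / T) * (1 + X.L) + 9 * EB.hs T₁) ≤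
        ((H : ℝ) + 1) * ((δ / 2 + 12 * 2 ^ W₁ / T) * (2 * X.L)) +
          ((H : ℝ) + 1) * (9 * EB.hs T₁) := by
      rw [← mul_add]
      apply mul_le_mul (by linarith)
      · have h3 : (δ / 2 + 12 * 2 ^ W₁ / (T : ℝ)) * (1 + X.L) ≤
            (δ / 2 + 12 * 2 ^ W₁ / T) * (2 * X.L) :=
          mul_le_mul_of_nonneg_left (by linarith) h1
        linarith
      · have h3 : 0 ≤ (δ / 2 + 12 * 2 ^ W₁ / (T : ℝ)) * (1 + X.L) :=
          mul_nonneg h1 (by linarith)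
        linarith
      · positivity
    have h3 : 0 ≤ (H : ℝ) * ((δ / 2 + 12 * 2 ^ W₁ / T) * (1 + X.L) + 9 * EB.hs T₁) +
        2 * (|B| * (3 * (1 + 2 ^ W₁) + 2)) := by
      have h4 : 0 ≤ (δ / 2 + 12 * 2 ^ W₁ / (T : ℝ)) * (1 + X.L) :=
        mul_nonneg h1 (by linarith)
      have := abs_nonneg B
      positivity
    exact mul_le_mul (hW w) (by linarith) h3 hW0.le
  have hfin : W * (((H : ℝ) + 1) * ((δ / 2 + 12 * 2 ^ W₁ / T) * (2 * X.L)) +
      ((H : ℝ) + 1) * (9 * EB.hs T₁) + 2 * (|B| * (3 * (1 + 2 ^ W₁) + 2))) ≤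
      (3 * ε / 8 + ε * 24 / 96) * X.L := by
    have e : W * (((H : ℝ) + 1) * ((δ / 2 + 12 * 2 ^ W₁ / T) * (2 * X.L)) +
      ((H : ℝ) + 1) * (9 * EB.hs T₁) + 2 * (|B| * (3 * (1 + 2 ^ W₁) + 2))) =
      W * (((H : ℝ) + 1) * ((δ / 2 + 12 * 2 ^ W₁ / T) * (2 * X.L))) +
      W * (((H : ℝ) + 1) * (9 * EB.hs T₁)) + W * (2 * (|B| * (3 * (1 + 2 ^ W₁) + 2))) := by ring
    rw [e]
    linarith
  have hLε : 0 ≤ ε * X.L := by positivity
  have hD : (∑ q ∈ EB.QQ w, 1 / (q : ℝ) * (2 * (1 - |f q|) + 4 / q)) * (H * (1 + X.L)) ≤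
      ε / 8 * X.L := by
    have h1 : (H : ℝ) * (1 + X.L) ≤ ((H : ℝ) + 1) * (2 * X.L) := by
      have hH : (0 : ℝ) ≤ H := Nat.cast_nonneg H
      nlinarith
    calc (∑ q ∈ EB.QQ w, 1 / (q : ℝ) * (2 * (1 - |f q|) + 4 / q)) * (H * (1 + X.L))
        ≤ η * (((H : ℝ) + 1) * (2 * X.L)) :=
          mul_le_mul hv h1 (by positivity) hη0.le
      _ = ε / 8 * X.L := by
          rw [hη]
          field_simp
          ring
  linarith

end Pool.Agent.H92.WN
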