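import Pool.Agent.H87.QP.Defs

/-!
# White noise (MP_c59857_nt, MP_34b97f_an): the finite form of the invariance under dilation, for
one function
-/

set_option autoImplicit false

namespace Pool.Agent.H92.WN

open Finset Pool.Agent.H6.N4D Pool.Agent.H93 Pool.Agent.H93.ES Pool.Agent.H93.DE
  Pool.Agent.H28.NW Pool.Agent.H87.QP

/-- the local autocorrelations of `f` at the shifts `h` and at the shifts `q h`, `q` a prime of a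
good level `w`, have the same law, in the mean over `q` -/
def FinU (f : ℕ → ℝ) : Prop := ∀ (H W₀ : ℕ) (B ε : ℝ), 0 < ε → ∃ W₁ T₀ : ℕ, ∀ T₁ : ℕ, ∃ X₀ : ℝ,
  ∀ X : Wn, X₀ ≤ X.L → ∃ w, W₀ ≤ w ∧ w ≤ W₁ ∧ ∀ T, T₀ ≤ T → T ≤ T₁ → ∀ F : (ℕ → ℝ) → ℝ,
  (∀ r r', |F r - F r'| ≤ ∑ k ∈ Icc 1 H, |r k - r' k|) → (∀ r, (∀ k, |r k| ≤ 1) → |F r| ≤ B) →
  ∑ q ∈ EB.QQ w, 1 / (q : ℝ) * wlg X (fun n => F (rh f (T / q) n)) ≤
    ∑ q ∈ EB.QQ w, 1 / (q : ℝ) * wlg X (fun n => F (fun k => rh f T n (q * k))) + ε * X.L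

/-- multiplicative functions with values in `[-1, 1]` -/
structure MulR (f : ℕ → ℝ) : Prop where
  bd : ∀ n, |f n| ≤ 1
  mul : ∀ m n : ℕ, Nat.Coprime m n → f (m * n) = f m * f n

/-- GLR. A good level between two bounds, all functions with values in `[-1, 1]`. -/
def T_GLR : Prop := ∀ (H W₀ : ℕ) (ε : ℝ), 0 < ε → ∃ (W₁ : ℕ) (X₀ : ℝ), ∀ (X : Wn)
  (f : ℕ → ℝ), X₀ ≤ X.L → (∀ n, |f n| ≤ 1) →
  ∃ w, W₀ ≤ w ∧ w ≤ W₁ ∧ ∑ h ∈ Icc 1 H, wlg X (fun n => ∑ q ∈ EB.QQ w, 1 / (q : ℝ) *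
    tq f q (2 ^ w) h n ^ 2) ≤ ε * X.L

/-- FNR. The finite form for real multiplicative functions. -/
def T_FNR : Prop := ∀ f : ℕ → ℝ, MulR f →
  Summable (fun p : {p : ℕ // p.Prime} => (1 - f p ^ 2) / (p : ℝ)) → FinU f

end Pool.Agent.H92.WN
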