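import Pool.Agent.H92.WN.Defs
import Pool.Agent.H78.RC.EBR

/-!
# White noise for real multiplicative functions: row GLR
-/

set_option autoImplicit false

namespace Pool.Agent.H92.WN

open Finset Pool.Agent.H6.N4D Pool.Agent.H93 Pool.Agent.H93.ES Pool.Agent.H93.DE
  Pool.Agent.H28.NW Pool.Agent.H87.QP

theorem pf_GLR (hE : Pool.Agent.H78.RC.T_EBR) : T_GLR := by
  intro H W₀ ε hε
  have hE' : ∀ h : ℕ, ∃ (C : ℝ) (w₀ : ℕ), 0 < C ∧ (1 ≤ h → ∀ (K : ℕ) (w : ℕ → ℕ),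
      w₀ ≤ w 0 → (∀ j, j + 1 < K → 400 * w j ≤ w (j + 1)) → ∃ X₀ : ℝ, ∀ (X : Wn) (f : ℕ → ℝ),
      X₀ ≤ X.L → (∀ n, |f n| ≤ 1) →
      ∑ j ∈ range K, wlg X (fun n => ∑ q ∈ EB.QQ (w j), 1 / (q : ℝ) *
        tq f q (2 ^ w j) h n ^ 2) ≤ C * X.L) := by
    intro h
    by_cases hh : 1 ≤ h
    · obtain ⟨C, w₀, hC, h2⟩ := hE h hh
      exact ⟨C, w₀, hC, fun _ => h2⟩
    · exact ⟨1, 0, one_pos, fun h' => absurd h' hh⟩
  choose C w₀ hC hE using hE'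
  set Cs : ℝ := ∑ h ∈ Icc 1 H, C h with hCs
  have hCs0 : 0 ≤ Cs := sum_nonneg fun h _ => (hC h).le
  obtain ⟨K, hK⟩ := exists_nat_gt (Cs / ε)
  set V : ℕ := max W₀ ((Icc 1 H).sup w₀) + 1 with hV
  set w : ℕ → ℕ := fun j => V * 400 ^ j with hw
  have hww : ∀ j, j + 1 < K → 400 * w j ≤ w (j + 1) := by
    intro j _
    rw [hw]
    simp only
    rw [pow_succ]
    apply le_of_eq
    ring
  have hV0 : ∀ h ∈ Icc 1 H, w₀ h ≤ w 0 := by
    intro h hh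
    have h1 : w₀ h ≤ (Icc 1 H).sup w₀ := Finset.le_sup (f := w₀) hh
    have h2 : w 0 = V := by rw [hw]; simp
    rw [h2, hV]
    omega
  have hex : ∀ h, ∃ X₀ : ℝ, h ∈ Icc 1 H → ∀ (X : Wn) (lam : ℕ → ℝ), X₀ ≤ X.L →
      (∀ n, |lam n| ≤ 1) →
      ∑ j ∈ range K, wlg X (fun n => ∑ q ∈ EB.QQ (w j), 1 / (q : ℝ) *
        tq lam q (2 ^ w j) h n ^ 2) ≤ C h * X.L := by
    intro h
    by_cases hh : h ∈ Icc 1 H
    · obtain ⟨X₀, hX⟩ := hE h (mem_Icc.1 hh).1 K w (hV0 h hh) hww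
      exact ⟨X₀, fun _ => hX⟩
    · exact ⟨0, fun h' => absurd h' hh⟩
  choose X₀ hX using hex
  refine ⟨V * 400 ^ K, ∑ h ∈ Icc 1 H, |X₀ h|, ?_⟩
  intro X lam hXL hl
  have h1 : ∑ j ∈ range K, ∑ h ∈ Icc 1 H, wlg X (fun n => ∑ q ∈ EB.QQ (w j), 1 / (q : ℝ) *
      tq lam q (2 ^ w j) h n ^ 2) ≤ Cs * X.L := by
    rw [sum_comm, hCs, sum_mul]
    refine sum_le_sum fun h hh => ?_
    refine hX h hh X lam ?_ hl
    refine le_trans ?_ hXL
    exact (le_abs_self _).trans (single_le_sum (f := fun h => |X₀ h|)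
      (fun i _ => abs_nonneg _) hh)
  have hKpos : 0 < K := by
    have h2 : (0 : ℝ) ≤ Cs / ε := by positivity
    have h3 : (0 : ℝ) < K := lt_of_le_of_lt h2 hK
    exact_mod_cast h3
  have hLn : 0 ≤ X.L := X.L_nonneg
  by_contra hcon
  push Not at hcon
  have h2 : ∀ j ∈ range K, ε * X.L < ∑ h ∈ Icc 1 H, wlg X (fun n => ∑ q ∈ EB.QQ (w j),
      1 / (q : ℝ) * tq lam q (2 ^ w j) h n ^ 2) := by
    intro j hj
    rw [mem_range] at hj
    apply hcon (w j)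
    · rw [hw]
      simp only
      have h3 : 1 ≤ 400 ^ j := Nat.one_le_pow _ _ (by norm_num)
      have h4 : W₀ ≤ V := by rw [hV]; omega
      nlinarith
    · rw [hw]
      simp only
      exact Nat.mul_le_mul_left _ (Nat.pow_le_pow_right (by norm_num) hj.le)
  have h3 := sum_lt_sum_of_nonempty ⟨0, mem_range.2 hKpos⟩ h2
  rw [sum_const, card_range, nsmul_eq_mul] at h3
  rw [div_lt_iff₀ hε] at hK
  have h4 : Cs * X.L ≤ (K : ℝ) * (ε * X.L) := by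
    rw [← mul_assoc]
    exact mul_le_mul_of_nonneg_right hK.le hLn
  linarith

end Pool.Agent.H92.WN
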