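import Pool.Agent.H92.WN.FNR
import Pool.Agent.H28.WN.All
import Pool.Agent.H60.WN.QGC
import Pool.Agent.H70.WN.TRIc

/-!
# White noise (MP_34b97f_an): all real multiplicative functions bounded by one
-/

set_option autoImplicit false

open MeasureTheory ProbabilityTheory Filter Topology Finset

namespace Pool.Agent.H92.WN

open Pool.Agent.H89.MT (I1 X IsMult QuasiGeneric)
open Pool.Agent.H83.W (S)
open Pool.Agent.H24.EG (comp)
open Pool.Agent.H24.WT (QGW qgw_mp)
open Pool.Agent.H24.WN (Spec Far W white)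
open Pool.Agent.H21.WN (RM)
open Pool.Agent.H93.ES (T_QSU)
open Pool.Agent.H87.QP (T_QLB)

/-- **White noise for all real multiplicative functions.** In every Furstenberg system the spectral
measure of the zeroth coordinate is, on almost every ergodic component, the sum of a discrete
measure and of a multiple of Lebesgue measure; every lower bound for the distance to the
eigenfunctions is a lower bound for this multiple. -/
theorem white_real (hG : T_GLR) (hQ : T_QSU) (hL : T_QLB) (u : ℕ → I1) (hu : IsMult u)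
    (κ : Measure X) [IsProbabilityMeasure κ] (hκ : QuasiGeneric u κ) :
    (∀ᵐ x ∂κ, Spec (comp κ x) (W κ x)) ∧
    ∀ (c : ℝ) (G : X → ℝ), Measurable G → (∀ x, 0 ≤ G x ∧ G x ≤ 1) → c ≤ ∫ x, G x ∂κ →
      (∀ᵐ x ∂κ, Far (comp κ x) (G x)) → c ≤ ∫ x, W κ x ∂κ := by
  have hW : QGW u κ := Pool.Agent.H60.WN.pf_QGC u κ ‹_› hκ
  by_cases hs : Summable (fun p : Nat.Primes => (1 - |(u (p : ℕ) : ℝ)|) / ((p : ℕ) : ℝ))
  · have hR : RM (fun n => (u n : ℝ)) := ⟨fun n => abs_le.2 (u n).2, hu.2, hs⟩
    exact Pool.Agent.H28.WN.white_of hW (pf_FNR hG hQ _ hR) hL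
  · exact white κ (qgw_mp hW) (Pool.Agent.H70.WN.tri_h0 u κ hu hκ hs)

end Pool.Agent.H92.WN
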